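import Pool.Agent.Helper52.SL.Count
import Pool.Agent.Helper38.Thick.Chain

/-!
# The lines of a set of points through a point
-/

set_option autoImplicit false
set_option linter.unusedSectionVars false

namespace Pool.Agent.Helper52.SL

open Pool.Agent.Helper28.BPack Pool.Agent.Helper61.Motz Pool.Agent.Helper38.Thick Finset
open scoped Classical

variable {L : Type} [Lattice L] [BoundedOrder L] [Finite L] [IsUpperModularLattice L]

/-- The lines through `x` and another point of `A`. -/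
noncomputable def Ln (A : Finset L) (x : L) : Finset L := (A.erase x).image (fun y => x ⊔ y)

/-- The number of these lines below `H`. -/
noncomputable def dg (A : Finset L) (x H : L) : ℕ := ((Ln A x).filter (fun g => g ≤ H)).card

theorem mem_Ln {A : Finset L} {x g : L} : g ∈ Ln A x ↔ ∃ y ∈ A, y ≠ x ∧ x ⊔ y = g := by
  simp only [Ln, Finset.mem_image, Finset.mem_erase]
  constructor
  · rintro ⟨y, ⟨h1, h2⟩, h3⟩
    exact ⟨y, h2, h1, h3⟩
  · rintro ⟨y, h1, h2, h3⟩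
    exact ⟨y, ⟨h2, h1⟩, h3⟩

variable {A : Finset L} (hA : ∀ a ∈ A, IsAtom a)
include hA

theorem rk_Ln {x g : L} (hx : x ∈ A) (hg : g ∈ Ln A x) : rk g = 2 ∧ x ≤ g := by
  obtain ⟨y, hy, hyx, rfl⟩ := mem_Ln.mp hg
  exact ⟨rk_line (hA x hx) (hA y hy) (Ne.symm hyx), le_sup_left⟩

theorem eq_Ln {x g y : L} (hx : x ∈ A) (hg : g ∈ Ln A x) (hy : y ∈ A) (hyx : y ≠ x) (hyg : y ≤ g) :
    g = x ⊔ y := by
  obtain ⟨h1, h2⟩ := rk_Ln hA hx hg
  refine (eq_of_le_of_rk (sup_le h2 hyg) ?_).symm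
  rw [rk_line (hA x hx) (hA y hy) (Ne.symm hyx), h1]

theorem rk_two {x g h : L} (hx : x ∈ A) (hg : g ∈ Ln A x) (hh : h ∈ Ln A x) (hgh : g ≠ h) :
    rk (g ⊔ h) = 3 := by
  obtain ⟨h1, h2⟩ := rk_Ln hA hx hg
  obtain ⟨h3, h4⟩ := rk_Ln hA hx hh
  obtain ⟨z, hz, hzx, rfl⟩ := mem_Ln.mp hh
  have h5 : ¬ z ≤ g := by
    intro h6
    exact hgh (eq_Ln hA hx hg hz hzx h6)
  have h7 : g ⊔ (x ⊔ z) = g ⊔ z := by
    rw [← sup_assoc, sup_eq_left.mpr h2]
  rw [h7, rk_sup_atom (hA z hz) h5, h1]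

theorem eq_plane {x g h H : L} (hx : x ∈ A) (hg : g ∈ Ln A x) (hh : h ∈ Ln A x) (hgh : g ≠ h)
    (hH : rk H = 3) (h1 : g ≤ H) (h2 : h ≤ H) : g ⊔ h = H :=
  eq_of_le_of_rk (sup_le h1 h2) (by rw [rk_two hA hx hg hh hgh, hH])

/-- The points of a plane are on its lines through `x`. -/
theorem card_plane_le {x H : L} (hx : x ∈ A) (hxH : x ≤ H) (hd : 0 < dg A x H) {s : ℕ}
    (hs : ∀ g ∈ Ln A x, (A.filter (fun a => a ≤ g)).card ≤ s) :
    (A.filter (fun a => a ≤ H)).card ≤ s * dg A x H := by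
  have h1 : (A.filter (fun a => a ≤ H)) ⊆ ((Ln A x).filter (fun g => g ≤ H)).biUnion
      (fun g => A.filter (fun a => a ≤ g)) := by
    intro y hy
    rw [Finset.mem_filter] at hy
    rw [Finset.mem_biUnion]
    by_cases hyx : y = x
    · obtain ⟨g, hg⟩ := Finset.card_pos.mp hd
      refine ⟨g, hg, ?_⟩
      rw [Finset.mem_filter]
      refine ⟨hy.1, ?_⟩
      rw [hyx]
      exact (rk_Ln hA hx (Finset.mem_filter.mp hg).1).2
    · refine ⟨x ⊔ y, ?_, ?_⟩
      · rw [Finset.mem_filter]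
        exact ⟨mem_Ln.mpr ⟨y, hy.1, hyx, rfl⟩, sup_le hxH hy.2⟩
      · rw [Finset.mem_filter]
        exact ⟨hy.1, le_sup_right⟩
  have h2 := (Finset.card_le_card h1).trans (Finset.card_biUnion_le_card_mul _ _ s
    (fun g hg => hs g (Finset.mem_filter.mp hg).1))
  rw [mul_comm]
  exact h2

end Pool.Agent.Helper52.SL
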