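import Pool.Agent.Helper52.SL.Rain

/-!
# The pairs of points of one point
-/

set_option autoImplicit false
set_option linter.unusedSectionVars false

namespace Pool.Agent.Helper52.SL

open Pool.Agent.Helper28.BPack Pool.Agent.Helper61.Motz Pool.Agent.Helper38.Thick Finset
open scoped Classical

variable {L : Type} [Lattice L] [BoundedOrder L] [Finite L] [IsUpperModularLattice L]

/-- The pairs of points which `x` may use. -/
noncomputable def Vp (A FL FP : Finset L) (x : L) : Finset (L × L) :=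
  ((A.erase x) ×ˢ (A.erase x)).filter (fun p => ¬ p.2 ≤ x ⊔ p.1 ∧ x ⊔ p.1 ∉ FL ∧ x ⊔ p.2 ∉ FL ∧
    x ⊔ p.1 ⊔ p.2 ∉ FP)

theorem mem_Vp {A FL FP : Finset L} {x : L} {p : L × L} : p ∈ Vp A FL FP x ↔
    (p.1 ∈ A ∧ p.1 ≠ x) ∧ (p.2 ∈ A ∧ p.2 ≠ x) ∧ ¬ p.2 ≤ x ⊔ p.1 ∧ x ⊔ p.1 ∉ FL ∧ x ⊔ p.2 ∉ FL ∧
      x ⊔ p.1 ⊔ p.2 ∉ FP := by
  rw [Vp, Finset.mem_filter, Finset.mem_product, Finset.mem_erase, Finset.mem_erase]
  tauto

variable {A : Finset L} (hA : ∀ a ∈ A, IsAtom a)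

/-- The pairs whose plane is `H`. -/
theorem card_plane_pairs {x H : L} (hxH : x ∈ A) {B : Finset (L × L)}
    (hB : ∀ p ∈ B, (p.1 ∈ A ∧ p.1 ≠ x) ∧ (p.2 ∈ A ∧ p.2 ≠ x) ∧ ¬ p.2 ≤ x ⊔ p.1 ∧
      x ⊔ p.1 ⊔ p.2 = H) :
    B.card ≤ ((A.filter (fun a => a ≤ H)).card - 1) * ((A.filter (fun a => a ≤ H)).card - 2) := by
  rcases B.eq_empty_or_nonempty with h0 | ⟨p0, hp0⟩
  · rw [h0]
    simp
  have hxx : x ≤ H := by
    obtain ⟨-, -, -, h⟩ := hB p0 hp0
    rw [← h]
    exact le_sup_left.trans le_sup_left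
  set C := (A.filter (fun a => a ≤ H)).erase x with hC
  have hCc : C.card = (A.filter (fun a => a ≤ H)).card - 1 :=
    Finset.card_erase_of_mem (Finset.mem_filter.mpr ⟨hxH, hxx⟩)
  have h1 : B ⊆ C.offDiag := by
    intro p hp
    obtain ⟨⟨h2, h3⟩, ⟨h4, h5⟩, h6, h7⟩ := hB p hp
    rw [Finset.mem_offDiag, hC, Finset.mem_erase, Finset.mem_erase, Finset.mem_filter,
      Finset.mem_filter]
    refine ⟨⟨h3, h2, ?_⟩, ⟨h5, h4, ?_⟩, ?_⟩
    · rw [← h7]
      exact le_sup_right.trans le_sup_left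
    · rw [← h7]
      exact le_sup_right
    · intro h8
      apply h6
      rw [← h8]
      exact le_sup_right
  have h2 := Finset.card_le_card h1
  rw [Finset.offDiag_card] at h2
  have h3 : C.card * C.card - C.card = C.card * (C.card - 1) := by
    rw [Nat.mul_sub, mul_one]
  rw [h3, hCc, Nat.sub_sub] at h2
  exact h2

/-- The pairs one of whose lines is `g`. -/
theorem card_line_pairs {x g : L} (hx : x ∈ A) {B : Finset (L × L)}
    (hB : ∀ p ∈ B, (p.1 ∈ A ∧ p.1 ≠ x) ∧ (p.2 ∈ A ∧ p.2 ≠ x) ∧ ¬ p.2 ≤ x ⊔ p.1 ∧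
      (x ⊔ p.1 = g ∨ x ⊔ p.2 = g)) :
    B.card ≤ 2 * (((A.filter (fun a => a ≤ g)).card - 1) * (A.card - 1)) := by
  rcases B.eq_empty_or_nonempty with h0 | ⟨p0, hp0⟩
  · rw [h0]
    simp
  have hxg : x ≤ g := by
    obtain ⟨-, -, -, h | h⟩ := hB p0 hp0
    · rw [← h]
      exact le_sup_left
    · rw [← h]
      exact le_sup_left
  set C := (A.filter (fun a => a ≤ g)).erase x with hC
  have hCc : C.card = (A.filter (fun a => a ≤ g)).card - 1 :=
    Finset.card_erase_of_mem (Finset.mem_filter.mpr ⟨hx, hxg⟩)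
  have hEc : (A.erase x).card = A.card - 1 := Finset.card_erase_of_mem hx
  have h1 : B ⊆ (C ×ˢ (A.erase x)) ∪ ((A.erase x) ×ˢ C) := by
    intro p hp
    obtain ⟨⟨h2, h3⟩, ⟨h4, h5⟩, h6, h7⟩ := hB p hp
    rw [Finset.mem_union, Finset.mem_product, Finset.mem_product, hC, Finset.mem_erase,
      Finset.mem_erase, Finset.mem_erase, Finset.mem_erase, Finset.mem_filter, Finset.mem_filter]
    rcases h7 with h7 | h7
    · left
      refine ⟨⟨h3, h2, ?_⟩, h5, h4⟩
      rw [← h7]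
      exact le_sup_right
    · right
      refine ⟨⟨h3, h2⟩, h5, h4, ?_⟩
      rw [← h7]
      exact le_sup_right
  have h2 := (Finset.card_le_card h1).trans (Finset.card_union_le _ _)
  rw [Finset.card_product, Finset.card_product, hCc, hEc] at h2
  have h3 : (A.card - 1) * ((A.filter (fun a => a ≤ g)).card - 1) =
    ((A.filter (fun a => a ≤ g)).card - 1) * (A.card - 1) := mul_comm _ _
  omega

include hA

/-- The number of pairs. -/
theorem card_Vp {x : L} (hx : x ∈ A) {s N a b : ℕ}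
    (hs : ∀ g, rk g = 2 → (A.filter (fun a => a ≤ g)).card ≤ s)
    (hN : ∀ H, rk H = 3 → (A.filter (fun a => a ≤ H)).card ≤ N)
    {FL FP : Finset L} (hFL2 : ∀ g ∈ FL, rk g = 2) (hFP3 : ∀ H ∈ FP, rk H = 3)
    (hFL : (FL.filter (fun g => x ≤ g)).card ≤ a)
    (hFP : (FP.filter (fun H => x ≤ H)).card ≤ b) :
    (A.card - 1) * (A.card - s) ≤
      (Vp A FL FP x).card + a * (2 * ((s - 1) * (A.card - 1))) + b * ((N - 1) * (N - 2)) := by
  let PP := ((A.erase x) ×ˢ (A.erase x)).filter (fun p : L × L => ¬ p.2 ≤ x ⊔ p.1)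
  have hPPm : ∀ p, p ∈ PP ↔ (p.1 ∈ A ∧ p.1 ≠ x) ∧ (p.2 ∈ A ∧ p.2 ≠ x) ∧ ¬ p.2 ≤ x ⊔ p.1 := by
    intro p
    rw [Finset.mem_filter, Finset.mem_product, Finset.mem_erase, Finset.mem_erase]
    tauto
  have hPP : (A.card - 1) * (A.card - s) ≤ PP.card := by
    have h1 : PP.card = ∑ c ∈ A.erase x, (PP.filter (fun p => p.1 = c)).card := by
      apply Finset.card_eq_sum_card_fiberwise
      intro p hp
      rw [Finset.mem_coe, hPPm] at hp
      rw [Finset.mem_coe, Finset.mem_erase]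
      exact ⟨hp.1.2, hp.1.1⟩
    rw [h1, ← Finset.card_erase_of_mem hx, ← smul_eq_mul, ← Finset.sum_const]
    refine Finset.sum_le_sum fun c hc => ?_
    rw [Finset.mem_erase] at hc
    have h2 := Finset.card_filter_add_card_filter_not (s := A) (fun y => y ≤ x ⊔ c)
    have h3 := hs (x ⊔ c) (rk_line (hA x hx) (hA c hc.2) (Ne.symm hc.1))
    have h4 : (A.filter (fun y => ¬ y ≤ x ⊔ c)).card ≤ (PP.filter (fun p => p.1 = c)).card := by
      refine Finset.card_le_card_of_injOn (fun d => (c, d)) ?_ ?_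
      · intro d hd
        rw [Finset.mem_coe, Finset.mem_filter] at hd
        rw [Finset.mem_coe, Finset.mem_filter, hPPm]
        refine ⟨⟨⟨hc.2, hc.1⟩, ⟨hd.1, ?_⟩, hd.2⟩, rfl⟩
        rintro rfl
        exact hd.2 le_sup_left
      · intro d _ d' _ h
        exact (Prod.ext_iff.mp h).2
    omega
  let B2 := PP.filter (fun p => x ⊔ p.1 ∈ FL ∨ x ⊔ p.2 ∈ FL)
  let B3 := PP.filter (fun p => x ⊔ p.1 ⊔ p.2 ∈ FP)
  have hcover : PP.card ≤ (Vp A FL FP x).card + B2.card + B3.card := by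
    have h1 : PP ⊆ Vp A FL FP x ∪ B2 ∪ B3 := by
      intro p hp
      rw [Finset.mem_union, Finset.mem_union]
      by_cases h2 : x ⊔ p.1 ∈ FL ∨ x ⊔ p.2 ∈ FL
      · exact Or.inl (Or.inr (Finset.mem_filter.mpr ⟨hp, h2⟩))
      · by_cases h3 : x ⊔ p.1 ⊔ p.2 ∈ FP
        · exact Or.inr (Finset.mem_filter.mpr ⟨hp, h3⟩)
        · left; left
          push Not at h2
          have h4 := (hPPm p).mp hp
          exact mem_Vp.mpr ⟨h4.1, h4.2.1, h4.2.2, h2.1, h2.2, h3⟩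
    have h2 := Finset.card_le_card h1
    have h3 := Finset.card_union_le (Vp A FL FP x ∪ B2) B3
    have h4 := Finset.card_union_le (Vp A FL FP x) B2
    omega
  have hB2 : B2.card ≤ a * (2 * ((s - 1) * (A.card - 1))) := by
    have h1 : B2 ⊆ (FL.filter (fun g => x ≤ g)).biUnion
        (fun g => PP.filter (fun p => x ⊔ p.1 = g ∨ x ⊔ p.2 = g)) := by
      intro p hp
      rw [Finset.mem_filter] at hp
      rw [Finset.mem_biUnion]
      rcases hp.2 with h | h
      · exact ⟨x ⊔ p.1, Finset.mem_filter.mpr ⟨h, le_sup_left⟩,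
          Finset.mem_filter.mpr ⟨hp.1, Or.inl rfl⟩⟩
      · exact ⟨x ⊔ p.2, Finset.mem_filter.mpr ⟨h, le_sup_left⟩,
          Finset.mem_filter.mpr ⟨hp.1, Or.inr rfl⟩⟩
    refine ((Finset.card_le_card h1).trans (Finset.card_biUnion_le_card_mul _ _
      (2 * ((s - 1) * (A.card - 1))) ?_)).trans (Nat.mul_le_mul_right _ hFL)
    intro g hg
    have h2 := card_line_pairs (A := A) (x := x) (g := g) hx
      (B := PP.filter (fun p => x ⊔ p.1 = g ∨ x ⊔ p.2 = g)) (by
        intro p hp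
        rw [Finset.mem_filter] at hp
        have := (hPPm p).mp hp.1
        exact ⟨this.1, this.2.1, this.2.2, hp.2⟩)
    have h3 := hs g (hFL2 g (Finset.mem_filter.mp hg).1)
    refine h2.trans ?_
    gcongr
  have hB3 : B3.card ≤ b * ((N - 1) * (N - 2)) := by
    have h1 : B3 ⊆ (FP.filter (fun H => x ≤ H)).biUnion
        (fun H => PP.filter (fun p => x ⊔ p.1 ⊔ p.2 = H)) := by
      intro p hp
      rw [Finset.mem_filter] at hp
      rw [Finset.mem_biUnion]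
      exact ⟨x ⊔ p.1 ⊔ p.2, Finset.mem_filter.mpr ⟨hp.2, le_sup_left.trans le_sup_left⟩,
        Finset.mem_filter.mpr ⟨hp.1, rfl⟩⟩
    refine ((Finset.card_le_card h1).trans (Finset.card_biUnion_le_card_mul _ _
      ((N - 1) * (N - 2)) ?_)).trans (Nat.mul_le_mul_right _ hFP)
    intro H hH
    have h2 := card_plane_pairs (A := A) (x := x) (H := H) hx
      (B := PP.filter (fun p => x ⊔ p.1 ⊔ p.2 = H)) (by
        intro p hp
        rw [Finset.mem_filter] at hp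
        have := (hPPm p).mp hp.1
        exact ⟨this.1, this.2.1, this.2.2, hp.2⟩)
    have h3 := hN H (hFP3 H (Finset.mem_filter.mp hH).1)
    refine h2.trans ?_
    gcongr
  omega

end Pool.Agent.Helper52.SL
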