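import Pool.Agent.Helper52.SL.Basic
import Pool.Agent.Helper63.HM.Hall

/-!
# Rainbow matchings for points which choose two lines and their plane
-/

set_option autoImplicit false
set_option linter.unusedSectionVars false

namespace Pool.Agent.Helper52.SL

open Pool.Agent.Helper28.BPack Pool.Agent.Helper61.Motz Pool.Agent.Helper38.Thick Finset
open scoped Classical

/-- The point `x` with the pair `p` uses the element `q`: as one of its two lines or as its
plane. -/
def Rr {L : Type} [Lattice L] (x : L) (p : L × L) (q : L) : Prop :=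
  q = x ⊔ p.1 ∨ q = x ⊔ p.2 ∨ q = x ⊔ p.1 ⊔ p.2

/-- The load of an element. -/
noncomputable def ld {L : Type} [Lattice L] (X : Finset L) (V : L → Finset (L × L)) (q : L) : ℝ :=
  ∑ y ∈ X, (((V y).filter (fun p => Rr y p q)).card : ℝ) / (V y).card

theorem rainbow3 {L : Type} [Lattice L] [Finite L] (X : Finset L) (V : L → Finset (L × L))
    (hV : ∀ x ∈ X, 0 < (V x).card)
    (hload : ∀ x ∈ X, ∀ p ∈ V x, ld X V (x ⊔ p.1) + ld X V (x ⊔ p.2) + ld X V (x ⊔ p.1 ⊔ p.2) ≤ 1) :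
    ∃ f : L → L × L, (∀ x ∈ X, f x ∈ V x) ∧
      ∀ x ∈ X, ∀ y ∈ X, x ≠ y → ∀ q, ¬ (Rr x (f x) q ∧ Rr y (f y) q) := by
  have := Fintype.ofFinite L
  let W : Type := Σ x : {x // x ∈ X}, {p // p ∈ V x.1}
  let w : W → ℝ := fun v => 1 / (V v.1.1).card
  have hw0 : ∀ v, 0 ≤ w v := fun v => by positivity
  have hl : ∀ q : L, ∑ᶠ u ∈ {u : W | Rr u.1.1 u.2.1 q}, w u = ld X V q := by
    intro q
    rw [finsum_mem_def, finsum_eq_sum_of_fintype]
    have e1 : ∀ u : W, ({u : W | Rr u.1.1 u.2.1 q}).indicator w u = if Rr u.1.1 u.2.1 q then w u else 0 := by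
      intro u
      rw [Set.indicator_apply]
      rfl
    rw [Finset.sum_congr rfl fun u _ => e1 u, ← Finset.univ_sigma_univ, Finset.sum_sigma]
    rw [ld, ← Finset.sum_coe_sort X]
    refine Finset.sum_congr rfl fun x _ => ?_
    rw [Finset.univ_eq_attach, Finset.sum_attach (V x.1)
      (fun p => if Rr x.1 p q then 1 / ((V x.1).card : ℝ) else 0)]
    rw [← Finset.sum_filter, Finset.sum_const, nsmul_eq_mul]
    ring
  obtain ⟨f, hf1, -, hf3⟩ := Pool.Agent.Helper63.HM.rainbow (V := W) (Q := L) (X := {x // x ∈ X})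
    (fun v q => Rr v.1.1 v.2.1 q) (fun v => v.1) w hw0
    (by
      intro v _
      have e1 : ∀ q ∈ {q | Rr v.1.1 v.2.1 q}, ∑ᶠ u ∈ {u : W | Rr u.1.1 u.2.1 q}, w u = ld X V q :=
        fun q _ => hl q
      have e2 : ∑ᶠ q ∈ {q | Rr v.1.1 v.2.1 q}, ∑ᶠ u ∈ {u : W | Rr u.1.1 u.2.1 q}, w u =
          ∑ᶠ q ∈ {q | Rr v.1.1 v.2.1 q}, ld X V q := finsum_mem_congr rfl e1
      rw [e2]
      have hld0 : ∀ q, 0 ≤ ld X V q := fun q => Finset.sum_nonneg fun _ _ => by positivity
      have e3 : {q | Rr v.1.1 v.2.1 q} =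
          (({v.1.1 ⊔ v.2.1.1, v.1.1 ⊔ v.2.1.2, v.1.1 ⊔ v.2.1.1 ⊔ v.2.1.2} : Finset L) : Set L) := by
        ext q
        simp only [Set.mem_ofPred_eq, Finset.coe_insert, Finset.coe_singleton,
          Set.mem_insert_iff, Set.mem_singleton_iff]
        rfl
      rw [e3, finsum_mem_coe_finset]
      refine le_trans ?_ (hload v.1.1 v.1.2 v.2.1 v.2.2)
      have e4 : ∀ (a : L) (s : Finset L), ∑ q ∈ insert a s, ld X V q ≤
          ld X V a + ∑ q ∈ s, ld X V q := by
        intro a s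
        by_cases h : a ∈ s
        · rw [Finset.insert_eq_of_mem h]
          linarith [hld0 a]
        · rw [Finset.sum_insert h]
      have e5 := e4 (v.1.1 ⊔ v.2.1.1) {v.1.1 ⊔ v.2.1.2, v.1.1 ⊔ v.2.1.1 ⊔ v.2.1.2}
      have e6 := e4 (v.1.1 ⊔ v.2.1.2) {v.1.1 ⊔ v.2.1.1 ⊔ v.2.1.2}
      rw [Finset.sum_singleton] at e6
      linarith)
    (by
      intro x
      have e1 : ∑ᶠ v ∈ {v : W | v.1 = x}, w v = ∑ p ∈ V x.1, 1 / ((V x.1).card : ℝ) := by
        rw [finsum_mem_def, finsum_eq_sum_of_fintype]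
        have e2 : ∀ u : W, ({v : W | v.1 = x}).indicator w u = if u.1 = x then w u else 0 := by
          intro u
          rw [Set.indicator_apply]
          rfl
        rw [Finset.sum_congr rfl fun u _ => e2 u, ← Finset.univ_sigma_univ, Finset.sum_sigma]
        rw [Finset.sum_eq_single x]
        · rw [Finset.univ_eq_attach, Finset.sum_attach (V x.1)
            (fun p => if x = x then 1 / ((V x.1).card : ℝ) else 0)]
          simp
        · intro y _ hy
          exact Finset.sum_eq_zero fun p _ => if_neg hy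
        · intro h
          exact absurd (Finset.mem_univ x) h
      rw [e1, Finset.sum_const, nsmul_eq_mul]
      have h1 : (0 : ℝ) < (V x.1).card := by exact_mod_cast hV x.1 x.2
      rw [mul_one_div, div_self h1.ne'])
  refine ⟨fun x => if h : x ∈ X then (f ⟨x, h⟩).2.1 else (x, x), ?_, ?_⟩
  · intro x hx
    simp only [dif_pos hx]
    have h1 : (f ⟨x, hx⟩).1.1 = x := congrArg Subtype.val (hf1 ⟨x, hx⟩)
    exact (Finset.ext_iff.mp (congrArg V h1) _).mp (f ⟨x, hx⟩).2.2
  · intro x hx y hy hxy q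
    simp only [dif_pos hx, dif_pos hy]
    have h1 : (f ⟨x, hx⟩).1.1 = x := congrArg Subtype.val (hf1 ⟨x, hx⟩)
    have h2 : (f ⟨y, hy⟩).1.1 = y := congrArg Subtype.val (hf1 ⟨y, hy⟩)
    have h3 := hf3 ⟨x, hx⟩ ⟨y, hy⟩ (fun h => hxy (congrArg Subtype.val h)) q
    simp only [h1, h2] at h3
    exact h3

end Pool.Agent.Helper52.SL
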