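import Pool.Agent.Helper52.SL.Pts

/-!
# Rank four data from counting pairs of points
-/

set_option autoImplicit false
set_option linter.unusedSectionVars false

namespace Pool.Agent.Helper52.SL

open Pool.Agent.Helper28.BPack Pool.Agent.Helper61.Motz Pool.Agent.Helper38.Thick Finset
open scoped Classical

variable {L : Type} [Lattice L] [BoundedOrder L] [Finite L] [IsUpperModularLattice L]
variable {A : Finset L} (hA : ∀ a ∈ A, IsAtom a)
include hA

/-- The load of a plane. -/
theorem ld_plane {FL FP X : Finset L} (hX : X ⊆ A) {N D : ℕ} (hD : 0 < D)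
    (hN : ∀ H, rk H = 3 → (A.filter (fun a => a ≤ H)).card ≤ N)
    (hV : ∀ x ∈ X, D ≤ (Vp A FL FP x).card) {H : L} (hH : rk H = 3) :
    ld X (Vp A FL FP) H ≤ ((N * ((N - 1) * (N - 2)) : ℕ) : ℝ) / D := by
  have hDr : (0 : ℝ) < D := by exact_mod_cast hD
  have h1 : ∀ y ∈ X, (((Vp A FL FP y).filter (fun p => Rr y p H)).card : ℝ) /
      (Vp A FL FP y).card ≤ if y ≤ H then (((N - 1) * (N - 2) : ℕ) : ℝ) / D else 0 := by
    intro y hy
    have hyA := hX hy
    by_cases hyH : y ≤ H
    · rw [if_pos hyH]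
      have h2 := card_plane_pairs (A := A) (x := y) (H := H) hyA
        (B := (Vp A FL FP y).filter (fun p => Rr y p H)) (by
          intro p hp
          rw [Finset.mem_filter] at hp
          have h3 := mem_Vp.mp hp.1
          refine ⟨h3.1, h3.2.1, h3.2.2.1, ?_⟩
          rcases hp.2 with h | h | h
          · exfalso
            rw [h, rk_line (hA y hyA) (hA _ h3.1.1) (Ne.symm h3.1.2)] at hH
            omega
          · exfalso
            rw [h, rk_line (hA y hyA) (hA _ h3.2.1.1) (Ne.symm h3.2.1.2)] at hH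
            omega
          · exact h.symm)
      have h3 : ((A.filter (fun a => a ≤ H)).card - 1) * ((A.filter (fun a => a ≤ H)).card - 2) ≤
          (N - 1) * (N - 2) := by
        have := hN H hH
        gcongr
      have h4 : (((Vp A FL FP y).filter (fun p => Rr y p H)).card : ℝ) ≤
          (((N - 1) * (N - 2) : ℕ) : ℝ) := by exact_mod_cast h2.trans h3
      have h5 : (D : ℝ) ≤ (Vp A FL FP y).card := by exact_mod_cast hV y hy
      exact div_le_div₀ (Nat.cast_nonneg _) h4 hDr h5
    · rw [if_neg hyH]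
      have h2 : (Vp A FL FP y).filter (fun p => Rr y p H) = ∅ := by
        apply Finset.filter_eq_empty_iff.mpr
        intro p _ h
        apply hyH
        rcases h with h | h | h
        · rw [h]; exact le_sup_left
        · rw [h]; exact le_sup_left
        · rw [h]; exact le_sup_left.trans le_sup_left
      rw [h2]
      simp
  rw [ld]
  refine (Finset.sum_le_sum h1).trans ?_
  rw [← Finset.sum_filter, Finset.sum_const, nsmul_eq_mul]
  have h2 : (X.filter (fun y => y ≤ H)).card ≤ N := by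
    refine (Finset.card_le_card ?_).trans (hN H hH)
    intro y hy
    rw [Finset.mem_filter] at hy ⊢
    exact ⟨hX hy.1, hy.2⟩
  have h3 : ((X.filter (fun y => y ≤ H)).card : ℝ) ≤ N := by exact_mod_cast h2
  rw [Nat.cast_mul N, mul_div_assoc]
  gcongr

/-- The load of a line. -/
theorem ld_line {FL FP X : Finset L} (hX : X ⊆ A) {s D : ℕ} (hD : 0 < D)
    (hs : ∀ g, rk g = 2 → (A.filter (fun a => a ≤ g)).card ≤ s)
    (hV : ∀ x ∈ X, D ≤ (Vp A FL FP x).card) {g : L} (hg : rk g = 2) :
    ld X (Vp A FL FP) g ≤ ((s * (2 * ((s - 1) * (A.card - 1))) : ℕ) : ℝ) / D := by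
  have hDr : (0 : ℝ) < D := by exact_mod_cast hD
  have h1 : ∀ y ∈ X, (((Vp A FL FP y).filter (fun p => Rr y p g)).card : ℝ) /
      (Vp A FL FP y).card ≤ if y ≤ g then ((2 * ((s - 1) * (A.card - 1)) : ℕ) : ℝ) / D else 0 := by
    intro y hy
    have hyA := hX hy
    by_cases hyg : y ≤ g
    · rw [if_pos hyg]
      have h2 := card_line_pairs (A := A) (x := y) (g := g) hyA
        (B := (Vp A FL FP y).filter (fun p => Rr y p g)) (by
          intro p hp
          rw [Finset.mem_filter] at hp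
          have h3 := mem_Vp.mp hp.1
          refine ⟨h3.1, h3.2.1, h3.2.2.1, ?_⟩
          rcases hp.2 with h | h | h
          · exact Or.inl h.symm
          · exact Or.inr h.symm
          · exfalso
            rw [h, rk_sup_atom (hA _ h3.2.1.1) h3.2.2.1,
              rk_line (hA y hyA) (hA _ h3.1.1) (Ne.symm h3.1.2)] at hg
            omega)
      have h3 : 2 * (((A.filter (fun a => a ≤ g)).card - 1) * (A.card - 1)) ≤
          2 * ((s - 1) * (A.card - 1)) := by
        have := hs g hg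
        gcongr
      have h4 : (((Vp A FL FP y).filter (fun p => Rr y p g)).card : ℝ) ≤
          ((2 * ((s - 1) * (A.card - 1)) : ℕ) : ℝ) := by exact_mod_cast h2.trans h3
      have h5 : (D : ℝ) ≤ (Vp A FL FP y).card := by exact_mod_cast hV y hy
      exact div_le_div₀ (Nat.cast_nonneg _) h4 hDr h5
    · rw [if_neg hyg]
      have h2 : (Vp A FL FP y).filter (fun p => Rr y p g) = ∅ := by
        apply Finset.filter_eq_empty_iff.mpr
        intro p _ h
        apply hyg
        rcases h with h | h | h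
        · rw [h]; exact le_sup_left
        · rw [h]; exact le_sup_left
        · rw [h]; exact le_sup_left.trans le_sup_left
      rw [h2]
      simp
  rw [ld]
  refine (Finset.sum_le_sum h1).trans ?_
  rw [← Finset.sum_filter, Finset.sum_const, nsmul_eq_mul]
  have h2 : (X.filter (fun y => y ≤ g)).card ≤ s := by
    refine (Finset.card_le_card ?_).trans (hs g hg)
    intro y hy
    rw [Finset.mem_filter] at hy ⊢
    exact ⟨hX hy.1, hy.2⟩
  have h3 : ((X.filter (fun y => y ≤ g)).card : ℝ) ≤ s := by exact_mod_cast h2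
  rw [Nat.cast_mul s, mul_div_assoc]
  gcongr

/-- **Rank four data from counting.** `b` is a basis, every other point is on at most `p` of the
lines and on at most `q` of the planes of the basis. -/
theorem crit4_count {b : Fin 4 → L} (hb : ∀ i, b i ∈ A)
    (hbr : rk ((Finset.univ : Finset (Fin 4)).sup b) = 4) {FL FP : Finset L}
    (hFL2 : ∀ g ∈ FL, rk g = 2) (hFP3 : ∀ H ∈ FP, rk H = 3)
    (hFLb : ∀ i j, i ≠ j → b i ⊔ b j ∈ FL)
    (hFPb : ∀ i j k, i ≠ j → i ≠ k → j ≠ k → b i ⊔ b j ⊔ b k ∈ FP) {p q s N : ℕ}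
    (hFL : ∀ x ∈ A, (∀ i, x ≠ b i) → (FL.filter (fun g => x ≤ g)).card ≤ p)
    (hFP : ∀ x ∈ A, (∀ i, x ≠ b i) → (FP.filter (fun H => x ≤ H)).card ≤ q)
    (hs : ∀ g, rk g = 2 → (A.filter (fun a => a ≤ g)).card ≤ s)
    (hN : ∀ H, rk H = 3 → (A.filter (fun a => a ≤ H)).card ≤ N)
    (hnum : N * ((N - 1) * (N - 2)) + 2 * (s * (2 * ((s - 1) * (A.card - 1)))) +
      p * (2 * ((s - 1) * (A.card - 1))) + q * ((N - 1) * (N - 2)) ≤
        (A.card - 1) * (A.card - s)) : Crit4 A := by
  set X := A.filter (fun x => ∀ i, x ≠ b i) with hXd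
  have hXA : X ⊆ A := Finset.filter_subset _ _
  have hmX : ∀ x, x ∈ X ↔ x ∈ A ∧ ∀ i, x ≠ b i := fun x => Finset.mem_filter
  set D := N * ((N - 1) * (N - 2)) + 2 * (s * (2 * ((s - 1) * (A.card - 1)))) with hDd
  have hV : ∀ x ∈ X, D ≤ (Vp A FL FP x).card := by
    intro x hx
    have hx' := (hmX x).mp hx
    have h1 := card_Vp hA hx'.1 hs hN hFL2 hFP3 (hFL x hx'.1 hx'.2) (hFP x hx'.1 hx'.2)
    omega
  -- the basis
  have hbne : ∀ i j, i ≠ j → b i ≠ b j := by
    intro i j hij h
    have h1 : (Finset.univ : Finset (Fin 4)).sup b = ((Finset.univ : Finset (Fin 4)).erase i).sup b := by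
      apply le_antisymm
      · apply Finset.sup_le
        intro k _
        by_cases hk : k = i
        · rw [hk, h]
          exact Finset.le_sup (Finset.mem_erase.mpr ⟨Ne.symm hij, Finset.mem_univ _⟩)
        · exact Finset.le_sup (Finset.mem_erase.mpr ⟨hk, Finset.mem_univ _⟩)
      · exact Finset.sup_mono (Finset.erase_subset _ _)
    have h2 := rk_sup_finset_le (⊥ : L) ((Finset.univ : Finset (Fin 4)).erase i) b
      (fun k _ => hA _ (hb k))
    rw [Finset.card_erase_of_mem (Finset.mem_univ i), Finset.card_univ, Fintype.card_fin, rk_bot,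
      bot_sup_eq, ← h1, hbr] at h2
    omega
  have hD : 0 < D := by
    have h1 : 2 ≤ s := by
      have h2 := hs (b 0 ⊔ b 1) (rk_line (hA _ (hb 0)) (hA _ (hb 1)) (hbne 0 1 (by decide)))
      have h3 : ({b 0, b 1} : Finset L) ⊆ A.filter (fun a => a ≤ b 0 ⊔ b 1) := by
        intro y hy
        rw [Finset.mem_insert, Finset.mem_singleton] at hy
        rw [Finset.mem_filter]
        rcases hy with rfl | rfl
        · exact ⟨hb 0, le_sup_left⟩
        · exact ⟨hb 1, le_sup_right⟩
      have h4 := (Finset.card_le_card h3).trans h2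
      rwa [Finset.card_pair (hbne 0 1 (by decide))] at h4
    have h2 : 2 ≤ A.card := by
      have h3 : ({b 0, b 1} : Finset L) ⊆ A := by
        intro y hy
        rw [Finset.mem_insert, Finset.mem_singleton] at hy
        rcases hy with rfl | rfl
        · exact hb 0
        · exact hb 1
      have h4 := Finset.card_le_card h3
      rwa [Finset.card_pair (hbne 0 1 (by decide))] at h4
    have h3 : 0 < s * (2 * ((s - 1) * (A.card - 1))) := by
      have : 0 < s - 1 := by omega
      have : 0 < A.card - 1 := by omega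
      positivity
    omega
  have hDr : (0 : ℝ) < D := by exact_mod_cast hD
  obtain ⟨f, hf, hdis⟩ := rainbow3 X (Vp A FL FP) (fun x hx => lt_of_lt_of_le hD (hV x hx)) (by
    intro x hx pr hp
    have h1 := mem_Vp.mp hp
    have hxA := hXA hx
    have r1 : rk (x ⊔ pr.1) = 2 := rk_line (hA x hxA) (hA _ h1.1.1) (Ne.symm h1.1.2)
    have r2 : rk (x ⊔ pr.2) = 2 := rk_line (hA x hxA) (hA _ h1.2.1.1) (Ne.symm h1.2.1.2)
    have r3 : rk (x ⊔ pr.1 ⊔ pr.2) = 3 := by
      rw [rk_sup_atom (hA _ h1.2.1.1) h1.2.2.1, r1]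
    have l1 := ld_line hA (FP := FP) (FL := FL) hXA hD hs hV r1
    have l2 := ld_line hA (FP := FP) (FL := FL) hXA hD hs hV r2
    have l3 := ld_plane hA (FP := FP) (FL := FL) hXA hD hN hV r3
    have h2 : ((s * (2 * ((s - 1) * (A.card - 1))) : ℕ) : ℝ) / D +
        ((s * (2 * ((s - 1) * (A.card - 1))) : ℕ) : ℝ) / D +
        ((N * ((N - 1) * (N - 2)) : ℕ) : ℝ) / D = 1 := by
      rw [← add_div, ← add_div, div_eq_one_iff_eq hDr.ne']
      rw [hDd]
      push_cast
      ring
    linarith)
  have hcX : ∀ x ∈ A, (∀ i, x ≠ b i) → x ∈ X := fun x hx hne => (hmX x).mpr ⟨hx, hne⟩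
  have hfm : ∀ x ∈ A, (∀ i, x ≠ b i) → _ := fun x hx hne => mem_Vp.mp (hf x (hcX x hx hne))
  refine ⟨b, fun x => (f x).1, fun x => (f x).2, hb, hbr, ?_, ?_, ?_, ?_, ?_, ?_, ?_, ?_⟩
  · intro x hx hne
    have h1 := hfm x hx hne
    refine ⟨h1.1.1, h1.2.1.1, ?_⟩
    rw [rk_sup_atom (hA _ h1.2.1.1) h1.2.2.1, rk_line (hA x hx) (hA _ h1.1.1) (Ne.symm h1.1.2)]
  · intro x hx hne y hy hne' e
    by_contra h
    exact hdis x (hcX x hx hne) y (hcX y hy hne') h (x ⊔ (f x).1) ⟨Or.inl rfl, Or.inl e⟩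
  · intro x hx hne y hy hne' e
    by_contra h
    exact hdis x (hcX x hx hne) y (hcX y hy hne') h (x ⊔ (f x).2)
      ⟨Or.inr (Or.inl rfl), Or.inr (Or.inl e)⟩
  · intro x hx hne y hy hne' e
    by_cases h : x = y
    · subst h
      have h1 := hfm x hx hne
      change x ⊔ (f x).1 = x ⊔ (f x).2 at e
      apply h1.2.2.1
      rw [e]
      exact le_sup_right
    · exact hdis x (hcX x hx hne) y (hcX y hy hne') h (x ⊔ (f x).1)
        ⟨Or.inl rfl, Or.inr (Or.inl e)⟩
  · intro x hx hne i j hij e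
    have h1 := hfm x hx hne
    apply h1.2.2.2.1
    change x ⊔ (f x).1 = b i ⊔ b j at e
    rw [e]
    exact hFLb i j hij
  · intro x hx hne i j hij e
    have h1 := hfm x hx hne
    apply h1.2.2.2.2.1
    change x ⊔ (f x).2 = b i ⊔ b j at e
    rw [e]
    exact hFLb i j hij
  · intro x hx hne y hy hne' e
    by_contra h
    exact hdis x (hcX x hx hne) y (hcX y hy hne') h (x ⊔ (f x).1 ⊔ (f x).2)
      ⟨Or.inr (Or.inr rfl), Or.inr (Or.inr e)⟩
  · intro x hx hne i j k hij hik hjk e
    have h1 := hfm x hx hne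
    apply h1.2.2.2.2.2
    change x ⊔ (f x).1 ⊔ (f x).2 = b i ⊔ b j ⊔ b k at e
    rw [e]
    exact hFPb i j k hij hik hjk

end Pool.Agent.Helper52.SL
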