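import Pool.Agent.Helper52.SL.Basic

/-!
# The pairs of lines of one point
-/

set_option autoImplicit false
set_option linter.unusedSectionVars false

namespace Pool.Agent.Helper52.SL

open Pool.Agent.Helper28.BPack Pool.Agent.Helper61.Motz Pool.Agent.Helper38.Thick Finset
open scoped Classical

variable {L : Type} [Lattice L] [BoundedOrder L] [Finite L] [IsUpperModularLattice L]

theorem card_pairs_le {A : Finset L} {x H : L} {B : Finset (L × L)}
    (hB : ∀ p ∈ B, p.1 ∈ Ln A x ∧ p.2 ∈ Ln A x ∧ p.1 ≤ H ∧ p.2 ≤ H) :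
    B.card ≤ dg A x H ^ 2 := by
  have h1 : B ⊆ ((Ln A x).filter (fun g => g ≤ H)) ×ˢ ((Ln A x).filter (fun g => g ≤ H)) := by
    intro p hp
    have := hB p hp
    rw [Finset.mem_product, Finset.mem_filter, Finset.mem_filter]
    exact ⟨⟨this.1, this.2.2.1⟩, ⟨this.2.1, this.2.2.2⟩⟩
  have h2 := Finset.card_le_card h1
  rw [Finset.card_product] at h2
  rw [sq]
  exact h2

/-- The pairs of lines through a point in big planes. -/
theorem card_big_le {A : Finset L} (hA : ∀ a ∈ A, IsAtom a) {x H0 : L} (hx : x ∈ A) {s : ℕ}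
    (hs2 : 2 ≤ s) (hH0 : rk H0 = 3) (hmax : ∀ H, rk H = 3 → dg A x H ≤ dg A x H0)
    (hv : 1000 * s ^ 2 ≤ (Ln A x).card)
    (ho : 400 * s ≤ ((Ln A x).filter (fun g => ¬ g ≤ H0)).card)
    (B : Finset (L × L))
    (hB : ∀ p ∈ B, p.1 ∈ (Ln A x).filter (fun g => ¬ g ≤ H0) ∧ p.2 ∈ Ln A x ∧ p.1 ≠ p.2 ∧
      5 * ((Ln A x).filter (fun g => ¬ g ≤ H0)).card * (Ln A x).card <
        18 * s * dg A x (p.1 ⊔ p.2) ^ 3) :
    3 * B.card ≤ 2 * (((Ln A x).filter (fun g => ¬ g ≤ H0)).card * (Ln A x).card) := by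
  set R := Ln A x with hR
  set O := R.filter (fun g => ¬ g ≤ H0) with hO
  have hOR : O ⊆ R := Finset.filter_subset _ _
  have hovle : O.card ≤ R.card := Finset.card_le_card hOR
  have hsplit : O.card + dg A x H0 = R.card := by
    have := Finset.card_filter_add_card_filter_not (s := R) (fun g => g ≤ H0)
    rw [dg, ← hR, hO]
    omega
  let T := B.image (fun p => p.1 ⊔ p.2)
  let I : L → Finset L := fun H => O.filter (fun g => g ≤ H)
  have hT : ∀ H ∈ T, rk H = 3 ∧ H ≠ H0 ∧ 5 * O.card * R.card < 18 * s * dg A x H ^ 3 := by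
    intro H hH
    obtain ⟨p, hp, rfl⟩ := Finset.mem_image.mp hH
    obtain ⟨h1, h2, h3, h4⟩ := hB p hp
    refine ⟨rk_two hA hx (hOR h1) h2 h3, ?_, h4⟩
    intro h5
    have h6 : p.1 ≤ p.1 ⊔ p.2 := le_sup_left
    rw [h5] at h6
    exact (Finset.mem_filter.mp h1).2 h6
  have hIO : ∀ H ∈ T, I H ⊆ O := fun H _ => Finset.filter_subset _ _
  have hI1 : ∀ H ∈ T, ∀ H' ∈ T, H ≠ H' → (I H ∩ I H').card ≤ 1 := by
    intro H hH H' hH' hne
    apply Finset.card_le_one.mpr
    intro g hg g' hg'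
    by_contra hgg
    have hg1 := Finset.mem_filter.mp (Finset.mem_inter.mp hg).1
    have hg2 := Finset.mem_filter.mp (Finset.mem_inter.mp hg).2
    have hg1' := Finset.mem_filter.mp (Finset.mem_inter.mp hg').1
    have hg2' := Finset.mem_filter.mp (Finset.mem_inter.mp hg').2
    have h1 := eq_plane hA hx (hOR hg1.1) (hOR hg1'.1) hgg (hT H hH).1 hg1.2 hg1'.2
    have h2 := eq_plane hA hx (hOR hg1.1) (hOR hg1'.1) hgg (hT H' hH').1 hg2.2 hg2'.2
    exact hne (h1.symm.trans h2)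
  have hId : ∀ H ∈ T, dg A x H - 1 ≤ (I H).card := by
    intro H hH
    have h1 : (R.filter (fun g => g ≤ H)) ⊆ I H ∪ (R.filter (fun g => g ≤ H ∧ g ≤ H0)) := by
      intro g hg
      rw [Finset.mem_filter] at hg
      rw [Finset.mem_union]
      by_cases h2 : g ≤ H0
      · right
        rw [Finset.mem_filter]
        exact ⟨hg.1, hg.2, h2⟩
      · left
        rw [Finset.mem_filter, hO, Finset.mem_filter]
        exact ⟨⟨hg.1, h2⟩, hg.2⟩
    have h2 : (R.filter (fun g => g ≤ H ∧ g ≤ H0)).card ≤ 1 := by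
      apply Finset.card_le_one.mpr
      intro g hg g' hg'
      by_contra hgg
      rw [Finset.mem_filter] at hg hg'
      have h1 := eq_plane hA hx hg.1 hg'.1 hgg (hT H hH).1 hg.2.1 hg'.2.1
      have h2 := eq_plane hA hx hg.1 hg'.1 hgg hH0 hg.2.2 hg'.2.2
      exact (hT H hH).2.1 (h1.symm.trans h2)
    have h3 := (Finset.card_le_card h1).trans (Finset.card_union_le _ _)
    have h4 : dg A x H = (R.filter (fun g => g ≤ H)).card := rfl
    omega
  have hbig : ∀ H ∈ T, 4 * O.card ≤ (I H).card ^ 2 := by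
    intro H hH
    have h1 := big_sq hs2 ho hv hovle (hT H hH).2.2
    exact h1.trans (Nat.pow_le_pow_left (hId H hH) 2)
  have hsum := sum_card_le O T I hIO hI1 hbig
  have hfib : ∀ H ∈ T, 2 * (B.filter (fun p => p.1 ⊔ p.2 = H)).card ≤ (I H).card * R.card := by
    intro H hH
    have h1 : B.filter (fun p => p.1 ⊔ p.2 = H) ⊆ (I H).biUnion
        (fun g => ((R.filter (fun g => g ≤ H)).erase g).image (fun h => (g, h))) := by
      intro p hp
      rw [Finset.mem_filter] at hp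
      obtain ⟨h2, h3, h4, h5⟩ := hB p hp.1
      rw [Finset.mem_biUnion]
      refine ⟨p.1, ?_, ?_⟩
      · rw [Finset.mem_filter]
        exact ⟨h2, hp.2 ▸ le_sup_left⟩
      · rw [Finset.mem_image]
        refine ⟨p.2, ?_, rfl⟩
        rw [Finset.mem_erase, Finset.mem_filter]
        exact ⟨Ne.symm h4, h3, hp.2 ▸ le_sup_right⟩
    have h2 := (Finset.card_le_card h1).trans (Finset.card_biUnion_le_card_mul _ _ (dg A x H - 1)
      (by
        intro g hg
        refine Finset.card_image_le.trans ?_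
        have h3 : g ∈ R.filter (fun g => g ≤ H) := by
          rw [Finset.mem_filter] at hg ⊢
          exact ⟨hOR hg.1, hg.2⟩
        rw [Finset.card_erase_of_mem h3]
        exact le_refl _))
    have h3 : 2 * (dg A x H - 1) ≤ R.card := by
      have h4 := hId H hH
      have h5 : (I H).card ≤ O.card := Finset.card_le_card (hIO H hH)
      have h6 := hmax H (hT H hH).1
      omega
    calc 2 * (B.filter (fun p => p.1 ⊔ p.2 = H)).card ≤ 2 * ((I H).card * (dg A x H - 1)) := by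
          gcongr
      _ = (I H).card * (2 * (dg A x H - 1)) := by ring
      _ ≤ (I H).card * R.card := by gcongr
  have hBsum : B.card = ∑ H ∈ T, (B.filter (fun p => p.1 ⊔ p.2 = H)).card :=
    Finset.card_eq_sum_card_image _ _
  have h2B : 2 * B.card ≤ (∑ H ∈ T, (I H).card) * R.card := by
    rw [hBsum, Finset.mul_sum, Finset.sum_mul]
    exact Finset.sum_le_sum hfib
  have h6B : 3 * (2 * B.card) ≤ 4 * O.card * R.card := by
    calc 3 * (2 * B.card) ≤ 3 * ((∑ H ∈ T, (I H).card) * R.card) := by gcongr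
      _ = (3 * ∑ H ∈ T, (I H).card) * R.card := by ring
      _ ≤ 4 * O.card * R.card := by gcongr
  have e : 4 * O.card * R.card = 2 * (2 * (O.card * R.card)) := by ring
  omega

/-- The pairs of a point `x`: many of them, in planes which are not big. -/
theorem exists_pairs {A : Finset L} (hA : ∀ a ∈ A, IsAtom a) {x H0 : L} (hx : x ∈ A) {s : ℕ}
    (hs2 : 2 ≤ s) (hs : ∀ g ∈ Ln A x, (A.filter (fun a => a ≤ g)).card ≤ s)
    (hH0 : rk H0 = 3) (hmax : ∀ H, rk H = 3 → dg A x H ≤ dg A x H0)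
    (hv : 1000 * s ^ 2 ≤ (Ln A x).card)
    (ho : 400 * s ≤ ((Ln A x).filter (fun g => ¬ g ≤ H0)).card)
    (FL FP : Finset L) (hFL : FL.card ≤ 6) (hFP : FP.card ≤ 4) :
    ∃ V : Finset (L × L), 0 < V.card ∧
      (∀ p ∈ V, p.1 ∈ Ln A x ∧ p.2 ∈ Ln A x ∧ p.1 ≠ p.2 ∧ p.1 ∉ FL ∧ p.2 ∉ FL ∧
        p.1 ⊔ p.2 ∉ FP) ∧
      (∀ g, 60 * s * (V.filter (fun p => p.1 = g ∨ p.2 = g)).card ≤ V.card) ∧
      (∀ H, 27 * (A.filter (fun a => a ≤ H)).card * (V.filter (fun p => p.1 ⊔ p.2 = H)).card ≤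
        25 * V.card) := by
  set R := Ln A x with hR
  set O := R.filter (fun g => ¬ g ≤ H0) with hO
  have hOR : O ⊆ R := Finset.filter_subset _ _
  have hovle : O.card ≤ R.card := Finset.card_le_card hOR
  set o := O.card with hoo
  set v := R.card with hvv
  let big : L × L → Prop := fun p => 5 * o * v < 18 * s * dg A x (p.1 ⊔ p.2) ^ 3
  let PP := (O ×ˢ R).filter (fun p => p.1 ≠ p.2)
  let V := PP.filter (fun p => ¬ big p ∧ p.1 ∉ FL ∧ p.2 ∉ FL ∧ p.1 ⊔ p.2 ∉ FP)
  have hPPm : ∀ p, p ∈ PP ↔ (p.1 ∈ O ∧ p.2 ∈ R) ∧ p.1 ≠ p.2 := fun p => by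
    rw [Finset.mem_filter, Finset.mem_product]
  have hVm : ∀ p, p ∈ V ↔ p ∈ PP ∧ ¬ big p ∧ p.1 ∉ FL ∧ p.2 ∉ FL ∧ p.1 ⊔ p.2 ∉ FP := fun p => by
    rw [Finset.mem_filter]
  -- the number of pairs
  have hPP : o * v ≤ PP.card + o := by
    have h1 := Finset.card_filter_add_card_filter_not (s := O ×ˢ R)
      (fun p : L × L => p.1 ≠ p.2)
    have h2 : ((O ×ˢ R).filter (fun p : L × L => ¬ p.1 ≠ p.2)).card ≤ o := by
      refine Finset.card_le_card_of_injOn (fun p => p.1) ?_ ?_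
      · intro p hp
        rw [Finset.mem_coe, Finset.mem_filter, Finset.mem_product] at hp
        exact hp.1.1
      · intro p hp p' hp' h
        rw [Finset.mem_coe, Finset.mem_filter] at hp hp'
        have e1 := not_not.mp hp.2
        have e2 := not_not.mp hp'.2
        have h' : p.1 = p'.1 := h
        exact Prod.ext h' (e1.symm.trans (h'.trans e2))
    rw [Finset.card_product] at h1
    have h3 : PP.card = ((O ×ˢ R).filter (fun p : L × L => p.1 ≠ p.2)).card := rfl
    rw [← h3, ← hoo, ← hvv] at h1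
    omega
  let B1 := PP.filter (fun p => big p)
  let B2 := PP.filter (fun p => p.1 ∈ FL ∨ p.2 ∈ FL)
  let B3 := PP.filter (fun p => ¬ big p ∧ p.1 ⊔ p.2 ∈ FP)
  have hcover : PP.card ≤ V.card + B1.card + B2.card + B3.card := by
    have h1 : PP ⊆ V ∪ B1 ∪ B2 ∪ B3 := by
      intro p hp
      by_cases h2 : big p
      · rw [Finset.mem_union, Finset.mem_union, Finset.mem_union]
        exact Or.inl (Or.inl (Or.inr (Finset.mem_filter.mpr ⟨hp, h2⟩)))
      · by_cases h3 : p.1 ∈ FL ∨ p.2 ∈ FL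
        · rw [Finset.mem_union, Finset.mem_union, Finset.mem_union]
          exact Or.inl (Or.inr (Finset.mem_filter.mpr ⟨hp, h3⟩))
        · by_cases h4 : p.1 ⊔ p.2 ∈ FP
          · rw [Finset.mem_union]
            exact Or.inr (Finset.mem_filter.mpr ⟨hp, h2, h4⟩)
          · push Not at h3
            rw [Finset.mem_union, Finset.mem_union, Finset.mem_union]
            exact Or.inl (Or.inl (Or.inl ((hVm p).mpr ⟨hp, h2, h3.1, h3.2, h4⟩)))
    have h2 := Finset.card_le_card h1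
    have h3 := Finset.card_union_le (V ∪ B1 ∪ B2) B3
    have h4 := Finset.card_union_le (V ∪ B1) B2
    have h5 := Finset.card_union_le V B1
    omega
  have hB1 : 3 * B1.card ≤ 2 * (o * v) := by
    apply card_big_le hA hx hs2 hH0 hmax hv ho B1
    intro p hp
    obtain ⟨h1, h2⟩ := Finset.mem_filter.mp hp
    obtain ⟨⟨h3, h4⟩, h5⟩ := (hPPm p).mp h1
    exact ⟨h3, h4, h5, h2⟩
  have hline : ∀ (B : Finset (L × L)) (g : L), B ⊆ PP →
      (B.filter (fun p => p.1 = g ∨ p.2 = g)).card ≤ 2 * v := by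
    intro B g hBP
    have h1 : B.filter (fun p => p.1 = g ∨ p.2 = g) ⊆ ({g} ×ˢ R) ∪ (R ×ˢ {g}) := by
      intro p hp
      rw [Finset.mem_filter] at hp
      obtain ⟨⟨h3, h4⟩, h5⟩ := (hPPm p).mp (hBP hp.1)
      rw [Finset.mem_union, Finset.mem_product, Finset.mem_product]
      rcases hp.2 with h | h
      · left
        exact ⟨Finset.mem_singleton.mpr h, h4⟩
      · right
        exact ⟨hOR h3, Finset.mem_singleton.mpr h⟩
    have h2 := (Finset.card_le_card h1).trans (Finset.card_union_le _ _)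
    rw [Finset.card_product, Finset.card_product, Finset.card_singleton] at h2
    omega
  have hB2 : B2.card ≤ 12 * v := by
    have h1 : B2 ⊆ FL.biUnion (fun f => PP.filter (fun p => p.1 = f ∨ p.2 = f)) := by
      intro p hp
      rw [Finset.mem_filter] at hp
      rw [Finset.mem_biUnion]
      rcases hp.2 with h | h
      · exact ⟨p.1, h, Finset.mem_filter.mpr ⟨hp.1, Or.inl rfl⟩⟩
      · exact ⟨p.2, h, Finset.mem_filter.mpr ⟨hp.1, Or.inr rfl⟩⟩
    have h2 := (Finset.card_le_card h1).trans (Finset.card_biUnion_le_card_mul _ _ (2 * v)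
      (fun f _ => hline PP f (Finset.Subset.refl _)))
    have h3 : FL.card * (2 * v) ≤ 6 * (2 * v) := by gcongr
    omega
  have hplane : ∀ (B : Finset (L × L)) (H : L), B ⊆ PP →
      (B.filter (fun p => p.1 ⊔ p.2 = H)).card ≤ dg A x H ^ 2 := by
    intro B H hBP
    apply card_pairs_le
    intro p hp
    rw [Finset.mem_filter] at hp
    obtain ⟨⟨h3, h4⟩, h5⟩ := (hPPm p).mp (hBP hp.1)
    exact ⟨hOR h3, h4, hp.2 ▸ le_sup_left, hp.2 ▸ le_sup_right⟩
  have hB3 : 400 * B3.card ≤ 4 * (o * v) := by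
    have h1 : B3 ⊆ FP.biUnion (fun H => B3.filter (fun p => p.1 ⊔ p.2 = H)) := by
      intro p hp
      rw [Finset.mem_biUnion]
      exact ⟨p.1 ⊔ p.2, (Finset.mem_filter.mp hp).2.2, Finset.mem_filter.mpr ⟨hp, rfl⟩⟩
    have h2 := (Finset.card_le_card h1).trans Finset.card_biUnion_le
    have h3 : ∀ H ∈ FP, 400 * (B3.filter (fun p => p.1 ⊔ p.2 = H)).card ≤ o * v := by
      intro H _
      rcases Finset.eq_empty_or_nonempty (B3.filter (fun p => p.1 ⊔ p.2 = H)) with h4 | h4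
      · rw [h4]
        simp
      · obtain ⟨p, hp⟩ := h4
        rw [Finset.mem_filter] at hp
        have h5 := (Finset.mem_filter.mp hp.1).2.1
        have h6 : 18 * s * dg A x (p.1 ⊔ p.2) ^ 3 ≤ 5 * o * v := not_lt.mp h5
        rw [hp.2] at h6
        have h7 := small_sq hs2 ho hv h6
        have h8 := hplane B3 H (Finset.filter_subset _ _)
        calc 400 * (B3.filter (fun p => p.1 ⊔ p.2 = H)).card ≤ 400 * dg A x H ^ 2 := by gcongr
          _ ≤ o * v := h7
    calc 400 * B3.card ≤ 400 * ∑ H ∈ FP, (B3.filter (fun p => p.1 ⊔ p.2 = H)).card := by gcongr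
      _ = ∑ H ∈ FP, 400 * (B3.filter (fun p => p.1 ⊔ p.2 = H)).card := Finset.mul_sum _ _ _
      _ ≤ ∑ _H ∈ FP, o * v := Finset.sum_le_sum h3
      _ = FP.card * (o * v) := by rw [Finset.sum_const, smul_eq_mul]
      _ ≤ 4 * (o * v) := by gcongr
  have hov1 : 800 * v ≤ o * v := by
    have : 800 ≤ o := by omega
    gcongr
  have hov2 : 4000 * o ≤ o * v := by
    have h1 : 2 ^ 2 ≤ s ^ 2 := Nat.pow_le_pow_left hs2 2
    have h2 : 4000 ≤ v := by omega
    calc 4000 * o ≤ v * o := by gcongr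
      _ = o * v := by ring
  have hZ : 3 * (o * v) ≤ 10 * V.card := by omega
  have hsv : 400 * s * v ≤ o * v := by gcongr
  refine ⟨V, ?_, ?_, ?_, ?_⟩
  · omega
  · intro p hp
    obtain ⟨h1, h2, h3, h4, h5⟩ := (hVm p).mp hp
    obtain ⟨⟨h6, h7⟩, h8⟩ := (hPPm p).mp h1
    exact ⟨hOR h6, h7, h8, h3, h4, h5⟩
  · intro g
    have h1 := hline V g (Finset.filter_subset _ _)
    have h2 : 60 * s * (V.filter (fun p => p.1 = g ∨ p.2 = g)).card ≤ 60 * s * (2 * v) := by
      gcongr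
    have h3 : 60 * s * (2 * v) * 10 = 3 * (400 * s * v) := by ring
    omega
  · intro H
    rcases Finset.eq_empty_or_nonempty (V.filter (fun p => p.1 ⊔ p.2 = H)) with h4 | h4
    · rw [h4]
      simp
    · obtain ⟨p, hp⟩ := h4
      rw [Finset.mem_filter] at hp
      obtain ⟨h1, h2, h3, h4, h5⟩ := (hVm p).mp hp.1
      obtain ⟨⟨h6, h7⟩, h8⟩ := (hPPm p).mp h1
      have h9 : 18 * s * dg A x H ^ 3 ≤ 5 * o * v := by
        have := not_lt.mp h2
        rw [hp.2] at this
        exact this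
      have hgH : p.1 ≤ H := hp.2 ▸ le_sup_left
      have hxH : x ≤ H := (rk_Ln hA hx (hOR h6)).2.trans hgH
      have hd : 0 < dg A x H := Finset.card_pos.mpr ⟨p.1, Finset.mem_filter.mpr ⟨hOR h6, hgH⟩⟩
      have h10 := card_plane_le hA hx hxH hd hs
      have h11 := hplane V H (Finset.filter_subset _ _)
      have h12 : 27 * (A.filter (fun a => a ≤ H)).card * (V.filter (fun p => p.1 ⊔ p.2 = H)).card ≤
          27 * (s * dg A x H) * dg A x H ^ 2 := by gcongr
      have h13 : 2 * (27 * (s * dg A x H) * dg A x H ^ 2) = 3 * (18 * s * dg A x H ^ 3) := by ring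
      have h14 : 5 * o * v = 5 * (o * v) := by ring
      omega

end Pool.Agent.Helper52.SL
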