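import Pool.Agent.Helper83.BQ.BigPlane
import Pool.Agent.Helper80.LP.Many
import Pool.Agent.Helper63.CR.WrapPlanes
import Pool.Agent.Helper68.VL.Main

/-!
# MP_47cd0b: three size conditions in rank four

A geometric lattice of rank four has a Boolean packing if
(1) every line has at most `s` points and there are at least `(s + 3) ^ 3` points or some plane has
at least `s ^ 2 + 3 * s + 1` points; or
(2) some line has `m` points, and `8 * n ≤ (m - 2) ^ 2` (`n` the number of all points); or
(3) every plane has at most `t` points, `1000 * t ≤ n` and `8 * t ^ 3 ≤ n ^ 2`.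
-/

set_option autoImplicit false
set_option linter.unusedSectionVars false

namespace Pool.Agent.Helper52.SL

open Pool.Agent.Helper28.BPack Pool.Agent.Helper61.Motz Pool.Agent.Helper38.Thick
  Pool.Agent.Helper8.ManyLines Pool.Agent.Helper63.CR

theorem packing_of_sizes {L : Type} [Lattice L] [BoundedOrder L] [Fintype L]
    [IsUpperModularLattice L]
    (hat : ∀ x : L, ∃ s : Finset L, (∀ a ∈ s, IsAtom a) ∧ s.sup id = x)
    (hr : Order.height (⊤ : L) = 4)
    (h : (∃ s : ℕ, (∀ g : L, Order.height g = 2 → {a : L | IsAtom a ∧ a ≤ g}.ncard ≤ s) ∧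
        ((s + 3) ^ 3 ≤ {a : L | IsAtom a}.ncard ∨
          ∃ P : L, Order.height P = 3 ∧
            s ^ 2 + 3 * s + 1 ≤ {a : L | IsAtom a ∧ a ≤ P}.ncard)) ∨
      (∃ u : L, Order.height u = 2 ∧
        8 * {a : L | IsAtom a}.ncard ≤ ({a : L | IsAtom a ∧ a ≤ u}.ncard - 2) ^ 2) ∨
      (∃ t : ℕ, (∀ P : L, Order.height P = 3 → {a : L | IsAtom a ∧ a ≤ P}.ncard ≤ t) ∧
        1000 * t ≤ {a : L | IsAtom a}.ncard ∧ 8 * t ^ 3 ≤ {a : L | IsAtom a}.ncard ^ 2)) :
    ∃ (t : ℕ) (n : Fin t → ℕ) (φ : ∀ i : Fin t, Set (Fin (n i)) → L),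
      (∀ i, Function.Injective (φ i)) ∧
      (∀ i (a b : Set (Fin (n i))), a ⋖ b → φ i a ⋖ φ i b) ∧
      (∀ i, Order.height (⊤ : L) ≤ Order.height (φ i ⊥) + Order.height (φ i ⊤)) ∧
      (∀ x : L, ∃! p : (Σ i : Fin t, Set (Fin (n i))), φ p.1 p.2 = x) := by
  rcases h with h | ⟨u, hu, h⟩ | h
  · refine packing_of_two ?_ ?_ hat hr h
    · intro _ _ A hA hrA s hs Q hQ hN
      refine Pool.Agent.Helper83.BQ.crit4_bigplane hA hrA s ?_ hQ ?_
      · intro g hg
        convert hs g hg
      · convert hN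
    · intro _ _ A hA hrA s hs hP hn
      refine Pool.Agent.Helper80.LP.crit4_many hA hrA s ?_ ?_ hn
      · intro g hg
        convert hs g hg
      · intro P hP'
        convert hP P hP'
  · classical
    refine packing_of_crit4 hat hr ?_
    intro A hA hrA
    rw [ncard_atoms' hA, ncard_atoms hA] at h
    have hu' : rk u = 2 := by
      rw [← coe_rk] at hu
      exact_mod_cast hu
    refine Pool.Agent.Helper68.VL.crit4_longest (fun a ha => (hA a).mp ha) hrA hu' ?_
    convert h
  · exact packing_of_planes hat hr h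

end Pool.Agent.Helper52.SL
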