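import Pool.Agent.Helper52.SL.V2
import Pool.Agent.Helper73.SW.Between

/-!
# MP_47cd0b: size conditions in rank four

A geometric lattice of rank four has a Boolean packing if
(1) every line has at most `s` points and there are at least `(s + 3) ^ 3` points, or some plane has
at least `s ^ 2 + 3 * s + 1` points, or every line has at least `k` points, with
`4 * (s ^ 2 + 3 * s - k) ≤ (k - 2) * (k - 3) ^ 2`; or
(2) some line has `m` points, and `8 * n ≤ (m - 2) ^ 2` (`n` the number of all points); or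
(3) every plane has at most `t` points, `1000 * t ≤ n` and `8 * t ^ 3 ≤ n ^ 2`.
-/

set_option autoImplicit false

namespace Pool.Agent.Helper52.SL

theorem packing_of_sizes' {L : Type} [Lattice L] [BoundedOrder L] [Fintype L]
    [IsUpperModularLattice L]
    (hat : ∀ x : L, ∃ s : Finset L, (∀ a ∈ s, IsAtom a) ∧ s.sup id = x)
    (hr : Order.height (⊤ : L) = 4)
    (h : (∃ s : ℕ, (∀ g : L, Order.height g = 2 → {a : L | IsAtom a ∧ a ≤ g}.ncard ≤ s) ∧
        ((s + 3) ^ 3 ≤ {a : L | IsAtom a}.ncard ∨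
          (∃ P : L, Order.height P = 3 ∧
            s ^ 2 + 3 * s + 1 ≤ {a : L | IsAtom a ∧ a ≤ P}.ncard) ∨
          ∃ k : ℕ, (∀ g : L, Order.height g = 2 → k ≤ {a : L | IsAtom a ∧ a ≤ g}.ncard) ∧
            4 * (s ^ 2 + 3 * s - k) ≤ (k - 2) * (k - 3) ^ 2)) ∨
      (∃ u : L, Order.height u = 2 ∧
        8 * {a : L | IsAtom a}.ncard ≤ ({a : L | IsAtom a ∧ a ≤ u}.ncard - 2) ^ 2) ∨
      (∃ t : ℕ, (∀ P : L, Order.height P = 3 → {a : L | IsAtom a ∧ a ≤ P}.ncard ≤ t) ∧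
        1000 * t ≤ {a : L | IsAtom a}.ncard ∧ 8 * t ^ 3 ≤ {a : L | IsAtom a}.ncard ^ 2)) :
    ∃ (t : ℕ) (n : Fin t → ℕ) (φ : ∀ i : Fin t, Set (Fin (n i)) → L),
      (∀ i, Function.Injective (φ i)) ∧
      (∀ i (a b : Set (Fin (n i))), a ⋖ b → φ i a ⋖ φ i b) ∧
      (∀ i, Order.height (⊤ : L) ≤ Order.height (φ i ⊥) + Order.height (φ i ⊤)) ∧
      (∀ x : L, ∃! p : (Σ i : Fin t, Set (Fin (n i))), φ p.1 p.2 = x) := by
  rcases h with ⟨s, hs, h | h | ⟨k, hk, hks⟩⟩ | h | h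
  · exact packing_of_sizes hat hr (Or.inl ⟨s, hs, Or.inl h⟩)
  · exact packing_of_sizes hat hr (Or.inl ⟨s, hs, Or.inr h⟩)
  · exact Pool.Agent.Helper73.SW.packing_between' hat hr
      ⟨k, s, hks, fun g hg => ⟨hk g hg, hs g hg⟩⟩
  · exact packing_of_sizes hat hr (Or.inr (Or.inl h))
  · exact packing_of_sizes hat hr (Or.inr (Or.inr h))

end Pool.Agent.Helper52.SL
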